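import Mathlib

set_option autoImplicit false

/-! The parity of the Zeckendorf sum of digits: letters and the shift map. -/

namespace Pool.Agent.U789.Zk

open Nat

/-- the number of terms of the Zeckendorf representation of `n`, modulo two -/
def S (n : ℕ) : Bool := decide ((zeckendorf n).length % 2 = 1)

/-- is `F_2 = 1` a term of the Zeckendorf representation of `n` -/
def ty (n : ℕ) : Bool := decide (2 ∈ zeckendorf n)

/-- shift of the Zeckendorf representation -/
def E (n : ℕ) : ℕ := ((zeckendorf n).map (fun i => fib (i + 1))).sum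

theorem zeck_fib_add {g r : ℕ} (hg : 2 ≤ g) (hr : r < fib (g - 1)) :
    zeckendorf (fib g + r) = g :: zeckendorf r := by
  have hpos : 0 < fib g := fib_pos.2 (by omega)
  have hgf : greatestFib (fib g + r) = g := by
    apply le_antisymm
    · have : greatestFib (fib g + r) < g + 1 := by
        rw [greatestFib_lt]
        have h := fib_add_one (n := g) (by omega)
        omega
      omega
    · rw [le_greatestFib]
      omega
  rw [zeckendorf_of_pos (by omega), hgf, Nat.add_sub_cancel_left]

theorem exists_decomp {n : ℕ} (hn : 0 < n) : ∃ g r, 2 ≤ g ∧ r < fib (g - 1) ∧ n = fib g + r := by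
  have h1 : 2 ≤ greatestFib n := by
    rw [le_greatestFib]
    have : fib 2 = 1 := by decide
    omega
  refine ⟨greatestFib n, n - fib (greatestFib n), h1, ?_, ?_⟩
  · have h2 := lt_fib_greatestFib_add_one n
    rw [fib_add_one (by omega)] at h2
    have h3 := fib_greatestFib_le n
    omega
  · have h3 := fib_greatestFib_le n
    omega

theorem S_zero : S 0 = false := by simp [S]

theorem ty_zero : ty 0 = false := by simp [ty]

theorem E_zero : E 0 = 0 := by simp [E]

theorem S_fib_add {g r : ℕ} (hg : 2 ≤ g) (hr : r < fib (g - 1)) : S (fib g + r) = !S r := by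
  unfold S
  rw [zeck_fib_add hg hr, List.length_cons]
  rcases Nat.mod_two_eq_zero_or_one (zeckendorf r).length with h | h
  · simp [h, Nat.add_mod]
  · simp [h, Nat.add_mod]

theorem ty_fib_add {g r : ℕ} (hg : 3 ≤ g) (hr : r < fib (g - 1)) : ty (fib g + r) = ty r := by
  unfold ty
  rw [zeck_fib_add (by omega) hr]
  have : (2 : ℕ) ≠ g := by omega
  simp [this]

theorem E_fib_add {g r : ℕ} (hg : 2 ≤ g) (hr : r < fib (g - 1)) :
    E (fib g + r) = fib (g + 1) + E r := by
  unfold E
  rw [zeck_fib_add hg hr, List.map_cons, List.sum_cons]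

theorem S_one : S 1 = true := by
  have := S_fib_add (g := 2) (r := 0) le_rfl (by decide)
  simpa [S_zero] using this

theorem ty_one : ty 1 = true := by
  have h : zeckendorf (fib 2 + 0) = 2 :: zeckendorf 0 := zeck_fib_add le_rfl (by decide)
  unfold ty
  simp at h
  simp [h]

theorem E_one : E 1 = 2 := by
  have := E_fib_add (g := 2) (r := 0) le_rfl (by decide)
  have h3 : fib 3 = 2 := by decide
  simpa [E_zero, h3] using this

theorem E_fib {g : ℕ} (hg : 2 ≤ g) : E (fib g) = fib (g + 1) := by
  have := E_fib_add (g := g) (r := 0) hg (fib_pos.2 (by omega))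
  simpa [E_zero] using this

theorem ty_fib {g : ℕ} (hg : 3 ≤ g) : ty (fib g) = false := by
  have := ty_fib_add (g := g) (r := 0) hg (fib_pos.2 (by omega))
  simpa [ty_zero] using this

/-- the length of the block of `n` -/
theorem E_succ (n : ℕ) : E (n + 1) = E n + (if ty n then 1 else 2) := by
  induction n using Nat.strong_induction_on with
  | _ n ih =>
    rcases Nat.eq_zero_or_pos n with h0 | h0
    · subst h0
      simp [E_zero, E_one, ty_zero]
    obtain ⟨g, r, hg, hr, rfl⟩ := exists_decomp h0
    rcases hg.lt_or_eq with hg3 | hg2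
    · have hlt : r < fib g + r := by
        have : 0 < fib g := fib_pos.2 (by omega)
        omega
      rw [ty_fib_add hg3 hr, E_fib_add hg hr, Nat.add_assoc (fib g)]
      have h1 := ih r hlt
      rcases Nat.lt_or_ge (r + 1) (fib (g - 1)) with h2 | h2
      · rw [E_fib_add hg h2, h1]
        ring
      · have h3 : r + 1 = fib (g - 1) := by omega
        have h4 : E (r + 1) = fib g := by
          rw [h3, E_fib (by omega)]
          congr 1
          omega
        have h5 : fib g + (r + 1) = fib (g + 1) := by
          rw [h3, fib_add_one (by omega)]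
          omega
        rw [h5, E_fib (by omega)]
        have h6 : fib (g + 1 + 1) = fib g + fib (g + 1) := fib_add_two
        rw [h6, ← h4, h1]
        ring
    · have hg2' : g = 2 := hg2.symm
      subst hg2'
      have hr0 : r = 0 := by
        have : fib (2 - 1) = 1 := by decide
        omega
      subst hr0
      have e1 : fib 2 + 0 = 1 := by decide
      rw [e1, ty_one, E_one]
      have e2 : (1 : ℕ) + 1 = fib 3 := by decide
      rw [e2, E_fib (by omega)]
      decide

theorem E_lt_succ (n : ℕ) : E n < E (n + 1) := by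
  rw [E_succ]
  split <;> omega

theorem E_strictMono : StrictMono E := strictMono_nat_of_lt_succ E_lt_succ

theorem le_E (n : ℕ) : n ≤ E n := E_strictMono.id_le n

theorem E_succ_true {n : ℕ} (h : ty n = true) : E (n + 1) = E n + 1 := by
  rw [E_succ, h]; rfl

theorem E_succ_false {n : ℕ} (h : ty n = false) : E (n + 1) = E n + 2 := by
  rw [E_succ, h]; rfl

theorem main_E (n : ℕ) : S (E n) = S n ∧ ty (E n) = false ∧ E (E n) = E n + n := by
  induction n using Nat.strong_induction_on with
  | _ n ih =>
    rcases Nat.eq_zero_or_pos n with h0 | h0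
    · subst h0
      simp [E_zero, ty_zero]
    obtain ⟨g, r, hg, hr, rfl⟩ := exists_decomp h0
    have hpos : 0 < fib g := fib_pos.2 (by omega)
    obtain ⟨h1, h2, h3⟩ := ih r (by omega)
    have hE : E r < fib (g + 1 - 1) := by
      have h4 : E r < E (fib (g - 1)) := E_strictMono hr
      rcases hg.lt_or_eq with hg3 | hg2
      · rw [E_fib (by omega)] at h4
        have : g - 1 + 1 = g + 1 - 1 := by omega
        rwa [this] at h4
      · have hg2' : g = 2 := hg2.symm
        subst hg2'
        have hr0 : r = 0 := by
          have : fib (2 - 1) = 1 := by decide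
          omega
        subst hr0
        rw [E_zero]
        decide
    rw [E_fib_add hg hr]
    refine ⟨?_, ?_, ?_⟩
    · rw [S_fib_add (by omega) hE, S_fib_add hg hr, h1]
    · rw [ty_fib_add (by omega) hE, h2]
    · rw [E_fib_add (by omega) hE, h3]
      have h6 : fib (g + 1 + 1) = fib g + fib (g + 1) := fib_add_two
      rw [h6]
      ring

theorem S_E (n : ℕ) : S (E n) = S n := (main_E n).1

theorem ty_E (n : ℕ) : ty (E n) = false := (main_E n).2.1

theorem E_E (n : ℕ) : E (E n) = E n + n := (main_E n).2.2

theorem main_E1 (n : ℕ) (hn : ty n = false) : S (E n + 1) = !S n ∧ ty (E n + 1) = true := by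
  induction n using Nat.strong_induction_on with
  | _ n ih =>
    rcases Nat.eq_zero_or_pos n with h0 | h0
    · subst h0
      simp [E_zero, S_one, S_zero, ty_one]
    obtain ⟨g, r, hg, hr, rfl⟩ := exists_decomp h0
    have hpos : 0 < fib g := fib_pos.2 (by omega)
    rcases hg.lt_or_eq with hg3 | hg2
    · rw [ty_fib_add hg3 hr] at hn
      obtain ⟨h1, h2⟩ := ih r (by omega) hn
      have hE : E r + 1 < fib (g + 1 - 1) := by
        have h4 : E (r + 1) ≤ E (fib (g - 1)) := E_strictMono.monotone hr
        rw [E_succ_false hn, E_fib (by omega)] at h4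
        have : g - 1 + 1 = g + 1 - 1 := by omega
        rw [this] at h4
        omega
      rw [E_fib_add hg hr, Nat.add_assoc]
      refine ⟨?_, ?_⟩
      · rw [S_fib_add (by omega) hE, S_fib_add hg hr, h1]
      · rw [ty_fib_add (by omega) hE, h2]
    · have hg2' : g = 2 := hg2.symm
      subst hg2'
      have hr0 : r = 0 := by
        have : fib (2 - 1) = 1 := by decide
        omega
      subst hr0
      have e1 : fib 2 + 0 = 1 := by decide
      rw [e1, ty_one] at hn
      exact absurd hn (by decide)

theorem S_E1 {n : ℕ} (hn : ty n = false) : S (E n + 1) = !S n := (main_E1 n hn).1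

theorem ty_E1 {n : ℕ} (hn : ty n = false) : ty (E n + 1) = true := (main_E1 n hn).2

/-- every number is `E n` or `E n + 1` -/
theorem exists_E (m : ℕ) : ∃ n, m = E n ∨ (ty n = false ∧ m = E n + 1) := by
  induction m with
  | zero => exact ⟨0, Or.inl E_zero.symm⟩
  | succ m ih =>
    obtain ⟨n, h | ⟨h1, h2⟩⟩ := ih
    · cases ht : ty n with
      | false => exact ⟨n, Or.inr ⟨ht, by rw [h]⟩⟩
      | true => exact ⟨n + 1, Or.inl (by rw [E_succ_true ht, h])⟩
    · exact ⟨n + 1, Or.inl (by rw [E_succ_false h1, h2])⟩

theorem exists_of_ty_false {m : ℕ} (h : ty m = false) : ∃ n, E n = m := by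
  obtain ⟨n, h1 | ⟨h1, h2⟩⟩ := exists_E m
  · exact ⟨n, h1.symm⟩
  · rw [h2, ty_E1 h1] at h
    exact absurd h (by decide)

theorem exists_of_ty_true {m : ℕ} (h : ty m = true) : ∃ n, ty n = false ∧ E n + 1 = m := by
  obtain ⟨n, h1 | ⟨h1, h2⟩⟩ := exists_E m
  · rw [h1, ty_E] at h
    exact absurd h (by decide)
  · exact ⟨n, h1, h2.symm⟩

theorem ty_succ_of_true {m : ℕ} (h : ty m = true) : ty (m + 1) = false := by
  obtain ⟨n, h1, rfl⟩ := exists_of_ty_true h
  have := E_succ_false h1
  have h2 : E n + 1 + 1 = E (n + 1) := by rw [this]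
  rw [h2, ty_E]

/-- the letter before a letter of type one -/
theorem pred_of_true {m : ℕ} (h : ty (m + 1) = true) : ty m = false ∧ S (m + 1) = !S m := by
  obtain ⟨n, h1, h2⟩ := exists_of_ty_true h
  have h3 : m = E n := by omega
  subst h3
  exact ⟨ty_E n, by rw [S_E1 h1, S_E]⟩

/-- letters -/
def x (n : ℕ) : Bool × Bool := (ty n, S n)

/-- the letter of which the block ends with a given letter -/
def g (a : Bool × Bool) : Bool × Bool := if a.1 then (false, !a.2) else (true, a.2)

theorem x_pred (p : ℕ) : x p = g (x (E (p + 1) - 1)) := by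
  cases ht : ty p with
  | false =>
    have h : E (p + 1) - 1 = E p + 1 := by rw [E_succ_false ht]; rfl
    rw [h]
    simp [x, g, ht, ty_E1 ht, S_E1 ht]
  | true =>
    have h : E (p + 1) - 1 = E p := by rw [E_succ_true ht]; rfl
    rw [h]
    simp [x, g, ht, ty_E, S_E]

theorem E_pred (p : ℕ) : E p + (if ty (E (p + 1) - 1) then 2 else 1) = E (p + 1) := by
  cases ht : ty p with
  | false =>
    have h : E (p + 1) - 1 = E p + 1 := by rw [E_succ_false ht]; rfl
    rw [h, ty_E1 ht, E_succ_false ht]
    rfl
  | true =>
    have h : E (p + 1) - 1 = E p := by rw [E_succ_true ht]; rfl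
    rw [h, ty_E, E_succ_true ht]
    rfl

end Pool.Agent.U789.Zk
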