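import Pool.Agent.U789.Zk.Runs

set_option autoImplicit false

/-! Sharp bounds for repeated factors with distinct successors. -/

namespace Pool.Agent.U789.Zk

open Nat

/-- Lucas numbers -/
def Lu (k : ℕ) : ℕ := fib (k + 1) + fib (k - 1)

theorem E_Lu {k : ℕ} (hk : 3 ≤ k) : E (Lu k) = Lu (k + 1) := by
  unfold Lu
  have h : fib (k - 1) < fib (k + 1 - 1) := by
    rw [Nat.add_sub_cancel]
    exact fib_lt_fib (by omega) |>.2 (by omega)
  rw [E_fib_add (by omega) h, E_fib (by omega)]
  congr 2
  omega

theorem n0_succ (i l : ℕ) : n0 i (l + 1) = n0 (i + 1) l + (if ty i then 0 else 1) ∧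
    n1 i (l + 1) = n1 (i + 1) l + (if ty i then 1 else 0) := by
  have a1 := E_succ i
  have a2 := E_add_ge (i + 1) l
  have a3 := E_add_le (i + 1) l
  have a4 : i + 1 + l = i + (l + 1) := by ring
  rw [a4] at a2 a3
  unfold n0 n1
  rw [a4]
  cases hc : ty i <;> simp [hc] at a1 ⊢ <;> omega

/-- comparison of two words of letters -/
def chk (f : ℕ → ℕ → ℕ → Bool) : List (Bool × Bool) → List (Bool × Bool) → ℕ → ℕ → ℕ → Bool
  | p :: u, q :: v, pos, c0, c1 =>
    if p = q then chk f u v (pos + 1) (bif p.1 then c0 else c0 + 1) (bif p.1 then c1 + 1 else c1)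
    else (p.2 == q.2) || f pos c0 c1
  | _, _, _, _, _ => true

theorem chk_spec (f : ℕ → ℕ → ℕ → Bool) : ∀ (l m1 m2 i j pos c0 c1 : ℕ),
    chk f (win m1 i) (win m2 j) pos c0 c1 = true → l < m1 → l < m2 →
    (∀ t < l, x (i + t) = x (j + t)) → S (i + l) ≠ S (j + l) →
    f (pos + l) (c0 + n0 i l) (c1 + n1 i l) = true := by
  intro l
  induction l with
  | zero =>
    intro m1 m2 i j pos c0 c1 h h1 h2 _ h3
    obtain ⟨m1, rfl⟩ : ∃ m, m1 = m + 1 := ⟨m1 - 1, by omega⟩
    obtain ⟨m2, rfl⟩ : ∃ m, m2 = m + 1 := ⟨m2 - 1, by omega⟩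
    rw [win_succ, win_succ, chk] at h
    simp only [Nat.add_zero] at h3
    have hne : x i ≠ x j := fun hc => h3 (congrArg Prod.snd hc)
    rw [if_neg hne] at h
    simp only [x, n0, n1, Bool.or_eq_true, beq_iff_eq] at h ⊢
    rcases h with h | h
    · exact absurd h h3
    · simpa using h
  | succ l ih =>
    intro m1 m2 i j pos c0 c1 h h1 h2 hx h3
    obtain ⟨m1, rfl⟩ : ∃ m, m1 = m + 1 := ⟨m1 - 1, by omega⟩
    obtain ⟨m2, rfl⟩ : ∃ m, m2 = m + 1 := ⟨m2 - 1, by omega⟩
    have he : x i = x j := by simpa using hx 0 (by omega)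
    rw [win_succ, win_succ, chk, if_pos he] at h
    have h4 := ih m1 m2 (i + 1) (j + 1) _ _ _ h (by omega) (by omega)
      (fun t ht => by
        have h5 := hx (t + 1) (by omega)
        rw [show i + 1 + t = i + (t + 1) by ring, show j + 1 + t = j + (t + 1) by ring]
        exact h5)
      (by
        rw [show i + 1 + l = i + (l + 1) by ring, show j + 1 + l = j + (l + 1) by ring]
        exact h3)
    obtain ⟨h5, h6⟩ := n0_succ i l
    rw [h5, h6]
    have e1 : pos + 1 + l = pos + (l + 1) := by ring
    rw [e1] at h4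
    have e2 : (bif (x i).1 then c0 else c0 + 1) + n0 (i + 1) l =
        c0 + (n0 (i + 1) l + (if ty i then 0 else 1)) := by
      cases hc : ty i <;> simp [x, hc] <;> omega
    have e3 : (bif (x i).1 then c1 + 1 else c1) + n1 (i + 1) l =
        c1 + (n1 (i + 1) l + (if ty i then 1 else 0)) := by
      cases hc : ty i <;> simp [x, hc] <;> omega
    rw [e2, e3] at h4
    exact h4

/-- comparison of the parities -/
def chkP (f : ℕ → ℕ → Bool) : List (Bool × Bool) → List (Bool × Bool) → ℕ → ℕ → Bool
  | p :: u, q :: v, pos, c =>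
    if p.2 = q.2 then chkP f u v (pos + 1) (c + 1) else f pos c
  | _, _, _, _ => true

theorem chkP_spec (f : ℕ → ℕ → Bool) : ∀ (l m1 m2 i j pos c : ℕ),
    chkP f (win m1 i) (win m2 j) pos c = true → l < m1 → l < m2 →
    (∀ t < l, S (i + t) = S (j + t)) → S (i + l) ≠ S (j + l) →
    f (pos + l) (c + l) = true := by
  intro l
  induction l with
  | zero =>
    intro m1 m2 i j pos c h h1 h2 _ h3
    obtain ⟨m1, rfl⟩ : ∃ m, m1 = m + 1 := ⟨m1 - 1, by omega⟩
    obtain ⟨m2, rfl⟩ : ∃ m, m2 = m + 1 := ⟨m2 - 1, by omega⟩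
    rw [win_succ, win_succ, chkP] at h
    simp only [Nat.add_zero] at h3
    have hne : ¬ ((x i).2 = (x j).2) := h3
    rw [if_neg hne] at h
    simpa using h
  | succ l ih =>
    intro m1 m2 i j pos c h h1 h2 hx h3
    obtain ⟨m1, rfl⟩ : ∃ m, m1 = m + 1 := ⟨m1 - 1, by omega⟩
    obtain ⟨m2, rfl⟩ : ∃ m, m2 = m + 1 := ⟨m2 - 1, by omega⟩
    have he : (x i).2 = (x j).2 := by simpa [x] using hx 0 (by omega)
    rw [win_succ, win_succ, chkP, if_pos he] at h
    have h4 := ih m1 m2 (i + 1) (j + 1) _ _ h (by omega) (by omega)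
      (fun t ht => by
        have h5 := hx (t + 1) (by omega)
        rw [show i + 1 + t = i + (t + 1) by ring, show j + 1 + t = j + (t + 1) by ring]
        exact h5)
      (by
        rw [show i + 1 + l = i + (l + 1) by ring, show j + 1 + l = j + (l + 1) by ring]
        exact h3)
    have e1 : pos + 1 + l = pos + (l + 1) := by ring
    have e2 : c + 1 + l = c + (l + 1) := by ring
    rw [e1, e2] at h4
    exact h4

/-- bounds at the first levels -/
def f0 (pos c0 c1 : ℕ) : Bool :=
  [(7, 1, 0), (11, 1, 1), (18, 2, 1), (29, 3, 2), (47, 5, 3), (76, 8, 5)].all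
    (fun a => Nat.ble a.1 pos || (Nat.ble c0 a.2.1 && Nat.ble c1 a.2.2))

/-- bounds at the first levels, parities -/
def f1 (pos c : ℕ) : Bool :=
  [(7, 2), (11, 2), (18, 4), (29, 5), (47, 9), (76, 13)].all
    (fun a => Nat.ble a.1 pos || Nat.ble c a.2)

/-- all pairs of suffixes -/
def allp (F : List (Bool × Bool) → List (Bool × Bool) → ℕ → Bool) :
    List (Bool × Bool) → ℕ → Bool
  | [], _ => true
  | p :: u, n => (go (p :: u) u (n + 1)) && allp F u (n + 1)
where
  go (w : List (Bool × Bool)) : List (Bool × Bool) → ℕ → Bool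
  | [], _ => true
  | q :: v, m => F w (q :: v) m && go w v (m + 1)

theorem go_spec (F : List (Bool × Bool) → List (Bool × Bool) → ℕ → Bool)
    (w : List (Bool × Bool)) : ∀ (m n e : ℕ), allp.go F w (win m n) n = true → e < m →
    F w (win (m - e) (n + e)) (n + e) = true := by
  intro m
  induction m with
  | zero => intro n e _ h; omega
  | succ m ih =>
    intro n e h he
    rw [win_succ, allp.go, Bool.and_eq_true] at h
    rcases Nat.eq_zero_or_pos e with h0 | h0
    · subst h0
      simpa [win_succ] using h.1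
    · have h1 := ih (n + 1) (e - 1) h.2 (by omega)
      have e1 : n + 1 + (e - 1) = n + e := by omega
      have e2 : m - (e - 1) = m + 1 - e := by omega
      rwa [e1, e2] at h1

theorem allp_spec (F : List (Bool × Bool) → List (Bool × Bool) → ℕ → Bool) :
    ∀ (m n i j : ℕ), allp F (win m n) n = true → n ≤ i → i < j → j < n + m →
    F (win (m - (i - n)) i) (win (m - (j - n)) j) j = true := by
  intro m
  induction m with
  | zero => intro n i j _ _ _ _; omega
  | succ m ih =>
    intro n i j h hi hij hj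
    rw [win_succ, allp, Bool.and_eq_true, ← win_succ] at h
    rcases hi.eq_or_lt with h0 | h0
    · subst h0
      have h1 := go_spec F _ m (n + 1) (j - (n + 1)) h.1 (by omega)
      have e1 : n + 1 + (j - (n + 1)) = j := by omega
      have e2 : m - (j - (n + 1)) = m + 1 - (j - n) := by omega
      rw [e1, e2] at h1
      simpa using h1
    · have h1 := ih (n + 1) i j h.2 (by omega) hij (by omega)
      have e1 : m - (i - (n + 1)) = m + 1 - (i - n) := by omega
      have e2 : m - (j - (n + 1)) = m + 1 - (j - n) := by omega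
      rwa [e1, e2] at h1

theorem check0 : allp (fun u v m => chk f0 u v m 0 0) (tab 9) 0 = true := by
  decide +kernel

theorem check1 : allp (fun u v m => chkP f1 u v m 0) (tab 9) 0 = true := by
  decide +kernel

theorem tab9 : tab 9 = win 89 0 := tab_eq' 9

theorem base0 {i j l : ℕ} (h : Run i j l) (hl : j + l < 76) : f0 (j + l) (n0 i l) (n1 i l) = true := by
  have h1 := check0
  rw [tab9] at h1
  have h2 := allp_spec _ 89 0 i j h1 (by omega) h.1 (by omega)
  have h3 := chk_spec f0 l _ _ i j j 0 0 h2 (by have := h.1; omega) (by omega) h.2.1 h.2.2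
  simpa using h3

theorem base1 {i j l : ℕ} (hij : i < j) (h : ∀ t < l, S (i + t) = S (j + t))
    (hs : S (i + l) ≠ S (j + l)) (hl : j + l < 76) : f1 (j + l) l = true := by
  have h1 := check1
  rw [tab9] at h1
  have h2 := allp_spec _ 89 0 i j h1 (by omega) hij (by omega)
  have h3 := chkP_spec f1 l _ _ i j j 0 h2 (by omega) (by omega) h hs
  simpa using h3

theorem Lu_mono {k : ℕ} (hk : 3 ≤ k) : Lu (k + 1) ≤ Lu (k + 2) := by
  unfold Lu
  have h1 : fib (k + 1 + 1) ≤ fib (k + 2 + 1) := fib_mono (by omega)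
  have h2 : fib (k + 1 - 1) ≤ fib (k + 2 - 1) := fib_mono (by omega)
  omega

theorem run_small {i j l k : ℕ} (hk : 3 ≤ k) (hk8 : k ≤ 8) (h : Run i j l)
    (hl : j + l < Lu (k + 1)) : n0 i l ≤ fib (k - 2) ∧ n1 i l ≤ fib (k - 3) := by
  have h76 : j + l < 76 := by
    have e : ∀ k ≤ 8, Lu (k + 1) ≤ 76 := by decide
    exact lt_of_lt_of_le hl (e k hk8)
  have hb := base0 h h76
  simp only [f0, List.all_cons, List.all_nil, Bool.and_true, Bool.and_eq_true, Bool.or_eq_true,
    Nat.ble_eq] at hb
  obtain ⟨b1, b2, b3, b4, b5, b6⟩ := hb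
  interval_cases k
  · have e1 : Lu (3 + 1) = 7 := by decide
    have e2 : fib (3 - 2) = 1 := by decide
    have e3 : fib (3 - 3) = 0 := by decide
    omega
  · have e1 : Lu (4 + 1) = 11 := by decide
    have e2 : fib (4 - 2) = 1 := by decide
    have e3 : fib (4 - 3) = 1 := by decide
    omega
  · have e1 : Lu (5 + 1) = 18 := by decide
    have e2 : fib (5 - 2) = 2 := by decide
    have e3 : fib (5 - 3) = 1 := by decide
    omega
  · have e1 : Lu (6 + 1) = 29 := by decide
    have e2 : fib (6 - 2) = 3 := by decide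
    have e3 : fib (6 - 3) = 2 := by decide
    omega
  · have e1 : Lu (7 + 1) = 47 := by decide
    have e2 : fib (7 - 2) = 5 := by decide
    have e3 : fib (7 - 3) = 3 := by decide
    omega
  · have e1 : Lu (8 + 1) = 76 := by decide
    have e2 : fib (8 - 2) = 8 := by decide
    have e3 : fib (8 - 3) = 5 := by decide
    omega

theorem pr_small {i j l k : ℕ} (hk : 3 ≤ k) (hk8 : k ≤ 8) (hij : i < j)
    (h : ∀ t < l, S (i + t) = S (j + t)) (hs : S (i + l) ≠ S (j + l))
    (hl : j + l < Lu (k + 1)) : l ≤ fib (k - 1) + k % 2 := by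
  have h76 : j + l < 76 := by
    have e : ∀ k ≤ 8, Lu (k + 1) ≤ 76 := by decide
    exact lt_of_lt_of_le hl (e k hk8)
  have hb := base1 hij h hs h76
  simp only [f1, List.all_cons, List.all_nil, Bool.and_true, Bool.and_eq_true, Bool.or_eq_true,
    Nat.ble_eq] at hb
  obtain ⟨b1, b2, b3, b4, b5, b6⟩ := hb
  interval_cases k
  · have e1 : Lu (3 + 1) = 7 := by decide
    have e2 : fib (3 - 1) = 1 := by decide
    omega
  · have e1 : Lu (4 + 1) = 11 := by decide
    have e2 : fib (4 - 1) = 2 := by decide
    omega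
  · have e1 : Lu (5 + 1) = 18 := by decide
    have e2 : fib (5 - 1) = 3 := by decide
    omega
  · have e1 : Lu (6 + 1) = 29 := by decide
    have e2 : fib (6 - 1) = 5 := by decide
    omega
  · have e1 : Lu (7 + 1) = 47 := by decide
    have e2 : fib (7 - 1) = 8 := by decide
    omega
  · have e1 : Lu (8 + 1) = 76 := by decide
    have e2 : fib (8 - 1) = 13 := by decide
    omega

theorem run_bound : ∀ k, 3 ≤ k → ∀ i j l, Run i j l → j + l < Lu (k + 1) →
    n0 i l ≤ fib (k - 2) ∧ n1 i l ≤ fib (k - 3) := by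
  intro k
  induction k with
  | zero => intro h; omega
  | succ k ih =>
    intro hk i j l h hl
    rcases Nat.lt_or_ge k 8 with h8 | h8
    · exact run_small hk (by omega) h hl
    have hna := n_add i l
    rcases Nat.lt_or_ge l 9 with h9 | h9
    · have e1 : fib 6 ≤ fib (k + 1 - 2) := fib_mono (by omega)
      have e2 : fib 6 ≤ fib (k + 1 - 3) := fib_mono (by omega)
      have e3 : fib 6 = 8 := by decide
      omega
    obtain ⟨i1, j1, l1, a1, a2, a3, a4, a5, a6⟩ := extend h
    have hl1 : 9 ≤ l1 := by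
      have := n_add i1 l1
      omega
    obtain ⟨i', j', l', b1, b2, b3, b4, b5, b6, b7⟩ := descend a1 hl1 a2
    obtain ⟨c1, c2⟩ := n_descend b3 b5
    have hlt : j' + l' < Lu (k + 1) := by
      have h1 : E (j' + l') < E (Lu (k + 1)) := by
        rw [E_Lu (by omega), ← b6, a4]
        exact hl
      exact E_strictMono.lt_iff_lt.1 h1
    obtain ⟨d1, d2⟩ := ih (by omega) i' j' l' b1 hlt
    have hna' := n_add i' l'
    have e1 : fib (k + 1 - 2) = fib (k - 3) + fib (k - 2) := by
      have : k + 1 - 2 = (k - 3) + 2 := by omega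
      rw [this, fib_add_two]
      congr 2
      omega
    have e2 : k + 1 - 3 = k - 2 := by omega
    rw [e2]
    omega

theorem gg {a b : Bool × Bool} (h1 : a.1 ≠ b.1) (h2 : a.2 = b.2) :
    (g (g a)).1 ≠ (g (g b)).1 ∧ (g (g a)).2 = (g (g b)).2 := by
  revert a b
  decide

theorem no_left : ∀ m, 2 ≤ m → ∀ i j, Run (i + 1) (j + 1) (fib (2 * m - 1)) → ty i ≠ ty j →
    S i = S j → j + 1 + fib (2 * m - 1) < Lu (2 * m + 1) → False := by
  intro m
  induction m with
  | zero => intro h; omega
  | succ m ih =>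
    intro hm i j h ht hs hl
    rcases Nat.lt_or_ge m 4 with h4 | h4
    · have h1 := pr_small (k := 2 * (m + 1)) (i := i) (j := j) (l := fib (2 * (m + 1) - 1) + 1)
        (by omega) (by omega) (by have := h.1; omega) (by
          intro t ht'
          rcases Nat.eq_zero_or_pos t with h0 | h0
          · subst h0; simpa using hs
          · have h5 := h.2.1 (t - 1) (by omega)
            have e1 : i + 1 + (t - 1) = i + t := by omega
            have e2 : j + 1 + (t - 1) = j + t := by omega
            rw [e1, e2] at h5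
            exact congrArg Prod.snd h5) (by
          have h5 := h.2.2
          rw [show i + 1 + fib (2 * (m + 1) - 1) = i + (fib (2 * (m + 1) - 1) + 1) by ring,
            show j + 1 + fib (2 * (m + 1) - 1) = j + (fib (2 * (m + 1) - 1) + 1) by ring] at h5
          exact h5) (by omega)
      omega
    · have hlen : 34 ≤ fib (2 * (m + 1) - 1) := by
        have e1 : fib 9 ≤ fib (2 * (m + 1) - 1) := fib_mono (by omega)
        have e2 : fib 9 = 34 := by decide
        omega
      have hLM : LM (i + 1) (j + 1) := by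
        right
        simp only [Nat.add_sub_cancel]
        intro hc
        exact ht (congrArg Prod.fst hc)
      obtain ⟨u1, u2⟩ := run_bound (2 * (m + 1)) (by omega) _ _ _ h hl
      have hna := n_add (i + 1) (fib (2 * (m + 1) - 1))
      have hf : fib (2 * (m + 1) - 1) = fib (2 * (m + 1) - 3) + fib (2 * (m + 1) - 2) := by
        have e : 2 * (m + 1) - 1 = (2 * (m + 1) - 3) + 2 := by omega
        rw [e, fib_add_two]
        congr 2
        omega
      obtain ⟨i', j', l', b1, b2, b3, b4, b5, b6, b7⟩ := descend h (by omega) hLM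
      obtain ⟨c1, c2⟩ := n_descend b3 b5
      have hi' : 0 < i' := by
        rcases Nat.eq_zero_or_pos i' with h0 | h0
        · subst h0
          rw [E_zero] at b3
          omega
        · exact h0
      have hl' : l' = fib (2 * (m + 1) - 2) := by omega
      have hlen' : 21 ≤ l' := by
        have e1 : fib 8 ≤ fib (2 * (m + 1) - 2) := fib_mono (by omega)
        have e2 : fib 8 = 21 := by decide
        omega
      obtain ⟨i'', j'', l'', b1', b2', b3', b4', b5', b6', b7'⟩ := descend b1 (by omega) b2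
      obtain ⟨c1', c2'⟩ := n_descend b3' b5'
      have hi'' : 0 < i'' := by
        rcases Nat.eq_zero_or_pos i'' with h0 | h0
        · subst h0
          rw [E_zero] at b3'
          omega
        · exact h0
      have hl'' : l'' = fib (2 * m - 1) := by
        have e : 2 * (m + 1) - 3 = 2 * m - 1 := by omega
        rw [← e]
        omega
      obtain ⟨v1, v2⟩ := b7 hi'
      obtain ⟨w1, w2⟩ := b7' hi''
      simp only [Nat.add_sub_cancel] at v1 v2
      rw [v1] at w1
      rw [v2] at w2
      obtain ⟨q1, q2⟩ := gg (a := x i) (b := x j) ht hs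
      rw [← w1, ← w2] at q1 q2
      have hj'' : 0 < j'' := by have := b1'.1; omega
      apply ih (by omega) (i'' - 1) (j'' - 1)
      · rw [Nat.sub_add_cancel hi'', Nat.sub_add_cancel hj'', ← hl'']
        exact b1'
      · exact q1
      · exact q2
      · rw [Nat.sub_add_cancel hj'', ← hl'']
        have h1 : E (E (j'' + l'')) < E (E (Lu (2 * m + 1))) := by
          rw [E_Lu (by omega), E_Lu (by omega), ← b6', ← b6]
          exact hl
        exact E_strictMono.lt_iff_lt.1 (E_strictMono.lt_iff_lt.1 h1)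

theorem pr_bound {k i j l : ℕ} (hk : 3 ≤ k) (hij : i < j)
    (h : ∀ t < l, S (i + t) = S (j + t)) (hs : S (i + l) ≠ S (j + l))
    (hl : j + l < Lu (k + 1)) : l ≤ fib (k - 1) + k % 2 := by
  rcases Nat.lt_or_ge k 9 with h9 | h9
  · exact pr_small hk (by omega) hij h hs hl
  have hf8 : 21 ≤ fib (k - 1) := by
    have e1 : fib 8 ≤ fib (k - 1) := fib_mono (by omega)
    have e2 : fib 8 = 21 := by decide
    omega
  rcases Nat.lt_or_ge l 6 with h6 | h6
  · omega
  have hx : ∀ t, 1 ≤ t → t < l → x (i + t) = x (j + t) := by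
    intro t ht1 ht2
    rcases Nat.lt_or_ge t 5 with ht5 | ht5
    · exact sync (fun u hu => h u (by omega)) t ht1 ht5
    · have h1 := sync (i := i + (t - 4)) (j := j + (t - 4)) (fun u hu => by
        have := h (t - 4 + u) (by omega)
        rw [Nat.add_assoc, Nat.add_assoc]
        exact this) 4 (by omega) (by omega)
      have e1 : i + (t - 4) + 4 = i + t := by omega
      have e2 : j + (t - 4) + 4 = j + t := by omega
      rwa [e1, e2] at h1
  have hf : fib (k - 1) = fib (k - 3) + fib (k - 2) := by
    have e : k - 1 = (k - 3) + 2 := by omega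
    rw [e, fib_add_two]
    congr 2
    omega
  obtain ⟨l, rfl⟩ : ∃ m, l = m + 1 := ⟨l - 1, by omega⟩
  have hr : Run (i + 1) (j + 1) l := by
    refine ⟨by omega, ?_, ?_⟩
    · intro t ht
      have := hx (t + 1) (by omega) (by omega)
      rw [show i + 1 + t = i + (t + 1) by ring, show j + 1 + t = j + (t + 1) by ring]
      exact this
    · rw [show i + 1 + l = i + (l + 1) by ring, show j + 1 + l = j + (l + 1) by ring]
      exact hs
  obtain ⟨u1, u2⟩ := run_bound k hk _ _ _ hr (by omega)
  have hna := n_add (i + 1) l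
  by_contra hcon
  have hk0 : k % 2 = 0 := by omega
  have hlk : l = fib (k - 1) := by omega
  have hne : x i ≠ x j := by
    intro hc
    have hr' : Run i j (l + 1) := by
      refine ⟨hij, ?_, hs⟩
      intro t ht
      rcases Nat.eq_zero_or_pos t with h0 | h0
      · subst h0; simpa using hc
      · exact hx t h0 ht
    obtain ⟨u1, u2⟩ := run_bound k hk _ _ _ hr' (by omega)
    have hna := n_add i (l + 1)
    omega
  have hS0 : S i = S j := by simpa using h 0 (by omega)
  have hty : ty i ≠ ty j := by
    intro hc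
    exact hne (by simp only [x, hc, hS0])
  obtain ⟨m, rfl⟩ : ∃ m, k = 2 * m := ⟨k / 2, by omega⟩
  subst hlk
  exact no_left m (by omega) i j hr hty hS0 (by omega)

end Pool.Agent.U789.Zk
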