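import Pool.Agent.U789.Zk.Bound

set_option autoImplicit false

/-! The maximum order complexity. -/

namespace Pool.Agent.U789.Zk

open Nat

/-- the `N`-th maximum order complexity of a binary sequence -/
noncomputable def MOC (s : ℕ → Bool) (N : ℕ) : ℕ :=
  sInf {κ : ℕ | ∃ f : (Fin κ → Bool) → Bool, ∀ i : ℕ, i + κ < N →
    s (i + κ) = f (fun j : Fin κ => s (i + (j : ℕ)))}

theorem mem_of_bound {s : ℕ → Bool} {N κ : ℕ}
    (h : ∀ i j, i < j → j + κ < N → (∀ t < κ, s (i + t) = s (j + t)) → s (i + κ) = s (j + κ)) :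
    ∃ f : (Fin κ → Bool) → Bool, ∀ i : ℕ, i + κ < N →
      s (i + κ) = f (fun j : Fin κ => s (i + (j : ℕ))) := by
  classical
  refine ⟨fun v => if hv : ∃ i, i + κ < N ∧ v = (fun j : Fin κ => s (i + (j : ℕ))) then
    s (Classical.choose hv + κ) else false, ?_⟩
  intro i hi
  have hv : ∃ i', i' + κ < N ∧ (fun j : Fin κ => s (i + (j : ℕ))) =
    (fun j : Fin κ => s (i' + (j : ℕ))) := ⟨i, hi, rfl⟩
  simp only [dif_pos hv]
  obtain ⟨h1, h2⟩ := Classical.choose_spec hv
  generalize Classical.choose hv = i' at h1 h2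
  have h3 : ∀ t < κ, s (i + t) = s (i' + t) := fun t ht => congrFun h2 ⟨t, ht⟩
  rcases Nat.lt_trichotomy i i' with h4 | h4 | h4
  · exact h i i' h4 h1 h3
  · rw [h4]
  · exact (h i' i h4 hi (fun t ht => (h3 t ht).symm)).symm

theorem le_of_mem {s : ℕ → Bool} {N κ i j l : ℕ}
    (hf : ∃ f : (Fin κ → Bool) → Bool, ∀ i : ℕ, i + κ < N →
      s (i + κ) = f (fun j : Fin κ => s (i + (j : ℕ))))
    (h : ∀ t < l, s (i + t) = s (j + t)) (hs : s (i + l) ≠ s (j + l)) (hij : i < j)
    (hN : j + l < N) : l + 1 ≤ κ := by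
  obtain ⟨f, hf⟩ := hf
  by_contra hcon
  have h1 := hf (i + (l - κ)) (by omega)
  have h2 := hf (j + (l - κ)) (by omega)
  have e1 : i + (l - κ) + κ = i + l := by omega
  have e2 : j + (l - κ) + κ = j + l := by omega
  rw [e1] at h1
  rw [e2] at h2
  apply hs
  rw [h1, h2]
  congr 1
  funext t
  have h3 := h (l - κ + t) (by have := t.2; omega)
  rw [Nat.add_assoc, Nat.add_assoc, h3]

theorem S_fib {g : ℕ} (hg : 2 ≤ g) : S (fib g) = true := by
  have := S_fib_add (g := g) (r := 0) hg (fib_pos.2 (by omega))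
  simpa [S_zero] using this

theorem S_fib_pred (m : ℕ) : S (fib (2 * m + 3) - 1) = S (fib (2 * m + 4) - 1) := by
  induction m with
  | zero =>
    have e1 : fib (2 * 0 + 3) - 1 = fib 2 := by decide
    have e2 : fib (2 * 0 + 4) - 1 = fib 3 := by decide
    rw [e1, e2, S_fib (by omega), S_fib (by omega)]
  | succ m ih =>
    have key : ∀ n, 3 ≤ n → S (fib (n + 2) - 1) = !S (fib n - 1) := by
      intro n hn
      have hp : 0 < fib n := fib_pos.2 (by omega)
      have e : fib (n + 2) - 1 = fib (n + 1) + (fib n - 1) := by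
        rw [fib_add_two]
        omega
      rw [e, S_fib_add (by omega) (by rw [Nat.add_sub_cancel]; omega)]
    have e1 : 2 * (m + 1) + 3 = 2 * m + 3 + 2 := by ring
    have e2 : 2 * (m + 1) + 4 = 2 * m + 4 + 2 := by ring
    rw [e1, e2, key (2 * m + 3) (by omega), key (2 * m + 4) (by omega), ih]

/-- the long repeated word -/
theorem lower {k : ℕ} (hk : 3 ≤ k) : ∃ i j, i < j ∧ j + (fib (k - 1) + k % 2) = Lu k ∧
    (∀ t < fib (k - 1) + k % 2, S (i + t) = S (j + t)) ∧
    S (i + (fib (k - 1) + k % 2)) ≠ S (j + (fib (k - 1) + k % 2)) := by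
  have hfk : fib (k + 1) = fib (k - 1) + fib k := by
    have e : k + 1 = (k - 1) + 2 := by omega
    rw [e, fib_add_two]
    congr 2
    omega
  have hlt : fib (k - 1) < fib k := fib_lt_fib (by omega) |>.2 (by omega)
  have hpos : 0 < fib (k - 1) := fib_pos.2 (by omega)
  have hk2 : k % 2 < 2 := Nat.mod_lt _ (by omega)
  have key : ∀ t < fib (k - 1), S (fib k + t) = S (fib (k + 1) + t) := by
    intro t ht
    rw [S_fib_add (by omega) ht, S_fib_add (by omega) (by rw [Nat.add_sub_cancel]; omega)]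
  have hend : S (fib k + fib (k - 1)) ≠ S (fib (k + 1) + fib (k - 1)) := by
    rw [S_fib_add (g := k + 1) (by omega) (by rw [Nat.add_sub_cancel]; omega),
      S_fib (g := k - 1) (by omega)]
    have e : fib k + fib (k - 1) = fib (k + 1) := by omega
    rw [e, S_fib (by omega)]
    decide
  refine ⟨fib k - k % 2, fib (k + 1) - k % 2, by omega, ?_, ?_, ?_⟩
  · unfold Lu
    omega
  · intro t ht
    rcases Nat.lt_or_ge t (k % 2) with h1 | h1
    · have hk1 : k % 2 = 1 := by omega
      have ht0 : t = 0 := by omega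
      subst ht0
      rw [hk1]
      obtain ⟨m, rfl⟩ : ∃ m, k = 2 * m + 3 := ⟨(k - 3) / 2, by omega⟩
      simpa using S_fib_pred m
    · have h2 := key (t - k % 2) (by omega)
      have e1 : fib k - k % 2 + t = fib k + (t - k % 2) := by omega
      have e2 : fib (k + 1) - k % 2 + t = fib (k + 1) + (t - k % 2) := by omega
      rw [e1, e2, h2]
  · have e1 : fib k - k % 2 + (fib (k - 1) + k % 2) = fib k + fib (k - 1) := by omega
    have e2 : fib (k + 1) - k % 2 + (fib (k - 1) + k % 2) = fib (k + 1) + fib (k - 1) := by omega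
    rw [e1, e2]
    exact hend

theorem MOC_eq {k N : ℕ} (hk : 3 ≤ k) (h1 : Lu k < N) (h2 : N ≤ Lu (k + 1)) :
    MOC S N = fib (k - 1) + 1 + k % 2 := by
  apply le_antisymm
  · apply Nat.sInf_le
    apply mem_of_bound
    intro i j hij hj ht
    by_contra hcon
    have := pr_bound hk hij ht hcon (by omega)
    omega
  · apply le_csInf
    · exact ⟨N, fun _ => false, fun i hi => by omega⟩
    · intro κ hκ
      obtain ⟨i, j, a1, a2, a3, a4⟩ := lower hk
      have := le_of_mem hκ a3 a4 a1 (by omega)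
      omega

theorem no_limit : ¬ ∃ c : ℝ,
    Filter.Tendsto (fun N : ℕ => (MOC S N : ℝ) / (N : ℝ)) Filter.atTop (nhds c) := by
  rintro ⟨c, hc⟩
  have hbig : ∀ K : ℕ, ∃ k, 9 ≤ k ∧ K ≤ k ∧ True := fun K => ⟨K + 9, by omega, by omega, trivial⟩
  -- estimates
  have est : ∀ k, 9 ≤ k → (MOC S (Lu (k + 1)) : ℝ) / (Lu (k + 1) : ℝ) ≤ 1 / 5 ∧
      (1 : ℝ) / 4 ≤ (MOC S (Lu k + 1) : ℝ) / ((Lu k + 1 : ℕ) : ℝ) := by
    intro k hk
    have f1 : fib (k + 2) = fib k + fib (k + 1) := fib_add_two
    have f2 : fib (k + 1) = fib (k - 1) + fib k := by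
      have e : k + 1 = (k - 1) + 2 := by omega
      rw [e, fib_add_two]
      congr 2
      omega
    have f3 : fib k = fib (k - 2) + fib (k - 1) := by
      have e : k = (k - 2) + 2 := by omega
      rw [e, fib_add_two]
      congr 2
    have f4 : fib (k - 1) = fib (k - 3) + fib (k - 2) := by
      have e : k - 1 = (k - 3) + 2 := by omega
      rw [e, fib_add_two]
      congr 2
      omega
    have f5 : fib (k - 3) ≤ fib (k - 2) := fib_mono (by omega)
    have f6 : 21 ≤ fib (k - 1) := by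
      have e1 : fib 8 ≤ fib (k - 1) := fib_mono (by omega)
      have e2 : fib 8 = 21 := by decide
      omega
    have hlt : Lu k < Lu (k + 1) := by
      unfold Lu
      rw [Nat.add_sub_cancel, show k + 1 + 1 = k + 2 by ring]
      omega
    have hk2 : k % 2 < 2 := Nat.mod_lt _ (by omega)
    have m1 := MOC_eq (k := k) (N := Lu (k + 1)) (by omega) hlt le_rfl
    have m2 := MOC_eq (k := k) (N := Lu k + 1) (by omega) (by omega) (by omega)
    rw [m1, m2]
    have hL1 : 5 * (fib (k - 1) + 1 + k % 2) ≤ Lu (k + 1) := by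
      unfold Lu
      rw [Nat.add_sub_cancel, show k + 1 + 1 = k + 2 by ring]
      omega
    have hL2 : Lu k + 1 ≤ 4 * (fib (k - 1) + 1 + k % 2) := by
      unfold Lu
      omega
    have hpos1 : (0 : ℝ) < (Lu (k + 1) : ℝ) := by
      have : 0 < Lu (k + 1) := by omega
      exact_mod_cast this
    have hpos2 : (0 : ℝ) < ((Lu k + 1 : ℕ) : ℝ) := by
      have : 0 < Lu k + 1 := by omega
      exact_mod_cast this
    constructor
    · rw [div_le_div_iff₀ hpos1 (by norm_num)]
      have : ((5 * (fib (k - 1) + 1 + k % 2) : ℕ) : ℝ) ≤ ((Lu (k + 1) : ℕ) : ℝ) := by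
        exact_mod_cast hL1
      push_cast at this ⊢
      linarith
    · rw [div_le_div_iff₀ (by norm_num) hpos2]
      have : ((Lu k + 1 : ℕ) : ℝ) ≤ ((4 * (fib (k - 1) + 1 + k % 2) : ℕ) : ℝ) := by
        exact_mod_cast hL2
      push_cast at this ⊢
      linarith
  have hLk : ∀ k, 9 ≤ k → k ≤ Lu k := by
    intro k hk
    unfold Lu
    have := Nat.le_fib_add_one (k + 1)
    have h2 : 21 ≤ fib (k - 1) := by
      have e1 : fib 8 ≤ fib (k - 1) := fib_mono (by omega)
      have e2 : fib 8 = 21 := by decide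
      omega
    omega
  have t1 : Filter.Tendsto (fun k : ℕ => Lu (k + 9 + 1)) Filter.atTop Filter.atTop := by
    apply Filter.tendsto_atTop_mono (f := fun k : ℕ => k)
    · intro k
      have := hLk (k + 9 + 1) (by omega)
      omega
    · exact Filter.tendsto_id
  have t2 : Filter.Tendsto (fun k : ℕ => Lu (k + 9) + 1) Filter.atTop Filter.atTop := by
    apply Filter.tendsto_atTop_mono (f := fun k : ℕ => k)
    · intro k
      have := hLk (k + 9) (by omega)
      omega
    · exact Filter.tendsto_id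
  have l1 : c ≤ 1 / 5 := le_of_tendsto (hc.comp t1)
    (Filter.Eventually.of_forall fun k => (est (k + 9) (by omega)).1)
  have l2 : 1 / 4 ≤ c := ge_of_tendsto (hc.comp t2)
    (Filter.Eventually.of_forall fun k => (est (k + 9) (by omega)).2)
  linarith

end Pool.Agent.U789.Zk
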