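import Pool.Agent.U789.Zk.Win

set_option autoImplicit false

/-! Repeated factors and their descent. -/

namespace Pool.Agent.U789.Zk

open Nat

/-- a repeated word of letters followed by two distinct parities -/
def Run (i j l : ℕ) : Prop := i < j ∧ (∀ t < l, x (i + t) = x (j + t)) ∧ S (i + l) ≠ S (j + l)

/-- not extendable to the left -/
def LM (i j : ℕ) : Prop := i = 0 ∨ x (i - 1) ≠ x (j - 1)

/-- number of letters of type zero -/
def n0 (i l : ℕ) : ℕ := E (i + l) - E i - l
/-- number of letters of type one -/
def n1 (i l : ℕ) : ℕ := 2 * l - (E (i + l) - E i)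

theorem E_add_le (n k : ℕ) : E (n + k) ≤ E n + 2 * k := by
  induction k with
  | zero => simp
  | succ k ih =>
    have h := E_succ (n + k)
    rw [Nat.add_assoc n k 1] at h
    split at h <;> omega

theorem n_add (i l : ℕ) : n0 i l + n1 i l = l := by
  have h1 := E_add_ge i l
  have h2 := E_add_le i l
  unfold n0 n1
  omega

theorem back {i j t p q : ℕ} (hx : ∀ u < t, x (i + u) = x (j + u)) (hp : E p = i + t)
    (hq : E q = j + t) : ∀ m, m ≤ p → i ≤ E (p - m) → m ≤ q ∧ ∃ t', t' ≤ t ∧
      E (p - m) = i + t' ∧ E (q - m) = j + t' ∧ ∀ v < m, x (p - m + v) = x (q - m + v) := by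
  intro m
  induction m with
  | zero =>
    intro _ _
    exact ⟨by omega, t, le_rfl, by simpa using hp, by simpa using hq, by omega⟩
  | succ m ih =>
    intro h1 h2
    have hle : E (p - (m + 1)) < E (p - m) := E_strictMono (by omega)
    obtain ⟨h3, t', h4, h5, h6, h7⟩ := ih (by omega) (by omega)
    have ht' : 1 ≤ t' := by omega
    have hqm : m < q := by
      by_contra hcon
      have : q - m = 0 := by omega
      rw [this, E_zero] at h6
      omega
    have e1 : p - (m + 1) + 1 = p - m := by omega
    have e2 : q - (m + 1) + 1 = q - m := by omega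
    have hxx : x (E (p - m) - 1) = x (E (q - m) - 1) := by
      have h8 := hx (t' - 1) (by omega)
      have e3 : E (p - m) - 1 = i + (t' - 1) := by omega
      have e4 : E (q - m) - 1 = j + (t' - 1) := by omega
      rw [e3, e4, h8]
    have hx1 : x (p - (m + 1)) = x (q - (m + 1)) := by
      rw [x_pred (p - (m + 1)), x_pred (q - (m + 1)), e1, e2, hxx]
    have hE1 := E_pred (p - (m + 1))
    have hE2 := E_pred (q - (m + 1))
    rw [e1] at hE1
    rw [e2] at hE2
    have hty : ty (E (p - m) - 1) = ty (E (q - m) - 1) := congrArg Prod.fst hxx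
    rw [hty] at hE1
    obtain ⟨δ, hδ⟩ : ∃ δ : ℕ, δ = (if ty (E (q - m) - 1) then 2 else 1) := ⟨_, rfl⟩
    rw [← hδ] at hE1 hE2
    refine ⟨by omega, t' - δ, by omega, by omega, by omega, ?_⟩
    · intro v hv
      rcases Nat.eq_zero_or_pos v with h0 | h0
      · subst h0
        simpa using hx1
      · have h9 := h7 (v - 1) (by omega)
        have e5 : p - (m + 1) + v = p - m + (v - 1) := by omega
        have e6 : q - (m + 1) + v = q - m + (v - 1) := by omega
        rw [e5, e6, h9]

/-- at the end of a long run both letters have type zero -/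
theorem end_type {i j l : ℕ} (h : Run i j l) (hl : 9 ≤ l) :
    ty (i + l) = false ∧ ty (j + l) = false := by
  obtain ⟨h1, h2, h3⟩ := h
  obtain ⟨l', rfl⟩ : ∃ l', l = l' + 1 := ⟨l - 1, by omega⟩
  -- symmetric argument
  have key : ∀ i j : ℕ, (∀ t < l' + 1, x (i + t) = x (j + t)) →
      S (i + (l' + 1)) ≠ S (j + (l' + 1)) → ty (i + (l' + 1)) = false := by
    intro i j h2 h3
    cases hti : ty (i + (l' + 1)) with
    | false => rfl
    | true =>
      exfalso
      have hlast := h2 l' (by omega)
      have hSl : S (i + l') = S (j + l') := congrArg Prod.snd hlast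
      have htl : ty (i + l') = ty (j + l') := congrArg Prod.fst hlast
      have a1 := pred_of_true (m := i + l') (by rw [Nat.add_assoc]; exact hti)
      rw [Nat.add_assoc] at a1
      cases htj : ty (j + (l' + 1)) with
      | true =>
        have a2 := pred_of_true (m := j + l') (by rw [Nat.add_assoc]; exact htj)
        rw [Nat.add_assoc] at a2
        rw [a1.2, a2.2, hSl] at h3
        exact h3 rfl
      | false =>
        obtain ⟨p, hp⟩ := exists_of_ty_false a1.1
        rw [a1.1] at htl
        obtain ⟨q, hq⟩ := exists_of_ty_false htl.symm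
        have hE4 : i ≤ E (p - 4) ∧ 4 ≤ p := by
          have h4 : 4 ≤ p := by
            by_contra hcon
            have h5 := E_add_le 0 p
            rw [E_zero, Nat.zero_add] at h5
            omega
          refine ⟨?_, h4⟩
          have h5 := E_add_le (p - 4) 4
          have e5 : p - 4 + 4 = p := by omega
          rw [e5] at h5
          omega
        obtain ⟨hq4, t', ht1, ht2, ht3, ht4⟩ := back (t := l') (fun u hu => h2 u (by omega))
          hp hq 4 hE4.2 hE4.1
        -- types of p and q
        have tp : ty p = false := by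
          cases hc : ty p with
          | false => rfl
          | true =>
            have h6 := E_succ_true hc
            rw [hp, Nat.add_assoc] at h6
            rw [← h6, ty_E] at hti
            exact absurd hti (by decide)
        have tq : ty q = true := by
          cases hc : ty q with
          | true => rfl
          | false =>
            have h6 := ty_E1 hc
            rw [hq, Nat.add_assoc, htj] at h6
            exact absurd h6 (by decide)
        have sp : S p = S q := by
          rw [← S_E p, ← S_E q, hp, hq, hSl]
        have h7 : ∀ t < 5, S (p - 4 + t) = S (q - 4 + t) := by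
          intro t ht
          rcases Nat.lt_or_ge t 4 with h8 | h8
          · exact congrArg Prod.snd (ht4 t h8)
          · have e7 : t = 4 := by omega
            subst e7
            have e8 : p - 4 + 4 = p := by omega
            have e9 : q - 4 + 4 = q := by omega
            rw [e8, e9, sp]
        have h8 := sync h7 4 (by omega) (by omega)
        have e8 : p - 4 + 4 = p := by omega
        have e9 : q - 4 + 4 = q := by omega
        rw [e8, e9] at h8
        have h9 : ty p = ty q := congrArg Prod.fst h8
        rw [tp, tq] at h9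
        exact absurd h9 (by decide)
  exact ⟨key i j h2 h3, key j i (fun t ht => (h2 t ht).symm) h3.symm⟩

theorem g_inj {a b : Bool × Bool} (h : g a = g b) : a = b := by
  revert a b
  decide

/-- desubstitution of long maximal runs -/
theorem descend {i j l : ℕ} (h : Run i j l) (hl : 9 ≤ l) (hm : LM i j) :
    ∃ i' j' l', Run i' j' l' ∧ LM i' j' ∧ i = E i' ∧ j = E j' ∧ i + l = E (i' + l') ∧
      j + l = E (j' + l') ∧ (0 < i' → x (i' - 1) = g (x (i - 1)) ∧ x (j' - 1) = g (x (j - 1))) := by
  obtain ⟨e1, e2⟩ := end_type h hl
  obtain ⟨h1, h2, h3⟩ := h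
  obtain ⟨p, hp⟩ := exists_of_ty_false e1
  obtain ⟨q, hq⟩ := exists_of_ty_false e2
  have hx0 : x i = x j := by simpa using h2 0 (by omega)
  have hti : ty i = false := by
    cases hc : ty i with
    | false => rfl
    | true =>
      exfalso
      have hj : ty j = true := by
        have : ty i = ty j := congrArg Prod.fst hx0
        rw [← this, hc]
      have hi0 : 0 < i := by
        rcases Nat.eq_zero_or_pos i with h0 | h0
        · subst h0
          rw [ty_zero] at hc
          exact absurd hc (by decide)
        · exact h0
      have a1 := pred_of_true (m := i - 1) (by rw [Nat.sub_add_cancel hi0]; exact hc)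
      have a2 := pred_of_true (m := j - 1) (by rw [Nat.sub_add_cancel (by omega)]; exact hj)
      rw [Nat.sub_add_cancel hi0] at a1
      rw [Nat.sub_add_cancel (by omega)] at a2
      have a3 : S i = S j := congrArg Prod.snd hx0
      have a4 : x (i - 1) = x (j - 1) := by
        have a5 : S (i - 1) = S (j - 1) := by
          rw [a1.2, a2.2] at a3
          simpa using a3
        simp only [x, a1.1, a2.1, a5]
      rcases hm with h0 | h0
      · omega
      · exact h0 a4
  have htj : ty j = false := by
    have : ty i = ty j := congrArg Prod.fst hx0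
    rw [← this, hti]
  obtain ⟨i', hi'⟩ := exists_of_ty_false hti
  obtain ⟨j', hj'⟩ := exists_of_ty_false htj
  have hip : i' < p := by
    apply E_strictMono.lt_iff_lt.1
    omega
  obtain ⟨b1, t', b2, b3, b4, b5⟩ := back h2 hp hq (p - i') (by omega) (by
    have : p - (p - i') = i' := by omega
    rw [this, hi'])
  have c1 : p - (p - i') = i' := by omega
  rw [c1, hi'] at b3
  have ht0 : t' = 0 := by omega
  subst ht0
  have c2 : q - (p - i') = j' := by
    apply E_strictMono.injective
    rw [b4, hj', Nat.add_zero]
  have c3 : j' + (p - i') = q := by omega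
  have c4 : i' + (p - i') = p := by omega
  have hij : i' < j' := by
    apply E_strictMono.lt_iff_lt.1
    omega
  rw [c1, c2] at b5
  refine ⟨i', j', p - i', ⟨hij, b5, ?_⟩, ?_, hi'.symm, hj'.symm, ?_, ?_, ?_⟩
  · rw [c3, c4, ← S_E p, ← S_E q, hp, hq]
    exact h3
  · rcases Nat.eq_zero_or_pos i' with h0 | h0
    · exact Or.inl h0
    · right
      intro hcon
      have hi0 : 0 < i := by
        have := le_E i'
        omega
      rw [x_pred (i' - 1), x_pred (j' - 1), Nat.sub_add_cancel h0,
        Nat.sub_add_cancel (by omega), hi', hj'] at hcon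
      rcases hm with h0' | h0'
      · omega
      · exact h0' (g_inj hcon)
  · rw [c4, hp]
  · rw [c3, hq]
  · intro h0
    rw [x_pred (i' - 1), x_pred (j' - 1), Nat.sub_add_cancel h0,
        Nat.sub_add_cancel (by omega), hi', hj']
    exact ⟨rfl, rfl⟩

theorem n_descend {i l i' l' : ℕ} (h1 : i = E i') (h2 : i + l = E (i' + l')) :
    n0 i l = l' ∧ n1 i l = n0 i' l' := by
  have a1 := E_E i'
  have a2 := E_E (i' + l')
  have a3 := E_add_ge i' l'
  have a4 := E_add_le i' l'
  unfold n0 n1
  rw [h2, a2, h1, a1]
  omega

theorem n_mono {i l : ℕ} : n0 (i + 1) l ≤ n0 i (l + 1) ∧ n1 (i + 1) l ≤ n1 i (l + 1) := by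
  have a1 := E_succ i
  have a2 := E_add_ge (i + 1) l
  have a3 := E_add_le (i + 1) l
  have a4 : i + 1 + l = i + (l + 1) := by ring
  rw [a4] at a2 a3
  unfold n0 n1
  rw [a4]
  split at a1 <;> omega

/-- extension to the left -/
theorem extend {i j l : ℕ} (h : Run i j l) : ∃ i' j' l', Run i' j' l' ∧ LM i' j' ∧
    i' + l' = i + l ∧ j' + l' = j + l ∧ n0 i l ≤ n0 i' l' ∧ n1 i l ≤ n1 i' l' := by
  induction i generalizing j l with
  | zero => exact ⟨0, j, l, h, Or.inl rfl, rfl, rfl, le_rfl, le_rfl⟩
  | succ i ih =>
    obtain ⟨h1, h2, h3⟩ := h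
    by_cases hx : x i = x (j - 1)
    · have hr : Run i (j - 1) (l + 1) := by
        refine ⟨by omega, ?_, ?_⟩
        · intro t ht
          rcases Nat.eq_zero_or_pos t with h0 | h0
          · subst h0
            simpa using hx
          · have h4 := h2 (t - 1) (by omega)
            have e1 : i + 1 + (t - 1) = i + t := by omega
            have e2 : j + (t - 1) = j - 1 + t := by omega
            rwa [e1, e2] at h4
        · have e1 : i + (l + 1) = i + 1 + l := by omega
          have e2 : j - 1 + (l + 1) = j + l := by omega
          rwa [e1, e2]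
      obtain ⟨i', j', l', a1, a2, a3, a4, a5, a6⟩ := ih hr
      have h5 := n_mono (i := i) (l := l)
      exact ⟨i', j', l', a1, a2, by omega, by omega, by omega, by omega⟩
    · exact ⟨i + 1, j, l, ⟨h1, h2, h3⟩, Or.inr (by simpa using hx), rfl, rfl, le_rfl, le_rfl⟩

end Pool.Agent.U789.Zk
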