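import Pool.Agent.U789.Zk.Basic

set_option autoImplicit false

/-! Windows of the letters and recognizability. -/

namespace Pool.Agent.U789.Zk

open Nat

abbrev la : Bool × Bool := (false, false)
abbrev lb : Bool × Bool := (true, true)
abbrev lc : Bool × Bool := (false, true)
abbrev ld : Bool × Bool := (true, false)

/-- the morphism -/
def sg (p : Bool × Bool) : List (Bool × Bool) :=
  if p.1 then [(false, p.2)] else [(false, p.2), (true, !p.2)]

/-- window of `k` letters from position `n` -/
def win (k n : ℕ) : List (Bool × Bool) := (List.range k).map (fun i => x (n + i))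

theorem win_succ (k n : ℕ) : win (k + 1) n = x n :: win k (n + 1) := by
  unfold win
  rw [List.range_succ_eq_map, List.map_cons, List.map_map]
  refine congrArg₂ _ rfl (List.map_congr_left fun i _ => ?_)
  simp only [Function.comp_apply]
  congr 1
  omega

theorem win_zero (n : ℕ) : win 0 n = [] := rfl

theorem length_win (k n : ℕ) : (win k n).length = k := by simp [win]

theorem win_add (k m n : ℕ) : win (k + m) n = win k n ++ win m (n + k) := by
  induction k generalizing n with
  | zero => simp [win_zero]
  | succ k ih =>
    rw [show k + 1 + m = k + m + 1 by ring, win_succ, win_succ, ih, List.cons_append,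
      show n + 1 + k = n + (k + 1) by ring]

theorem sg_x (n : ℕ) : sg (x n) = win (E (n + 1) - E n) (E n) := by
  cases ht : ty n with
  | false =>
    have h : E (n + 1) - E n = 2 := by rw [E_succ_false ht]; omega
    rw [h]
    simp [win_succ, win_zero, sg, x, ht, ty_E, S_E, ty_E1 ht, S_E1 ht]
  | true =>
    have h : E (n + 1) - E n = 1 := by rw [E_succ_true ht]; omega
    rw [h]
    simp [win_succ, win_zero, sg, x, ht, ty_E, S_E]

theorem flatMap_win (k n : ℕ) : (win k n).flatMap sg = win (E (n + k) - E n) (E n) := by
  induction k generalizing n with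
  | zero => simp [win_zero]
  | succ k ih =>
    rw [win_succ, List.flatMap_cons, sg_x, ih]
    have h1 : E n ≤ E (n + 1) := E_strictMono.monotone (by omega)
    have h2 : E (n + 1) ≤ E (n + 1 + k) := E_strictMono.monotone (by omega)
    have h3 : E (n + 1) = E n + (E (n + 1) - E n) := by omega
    have h4 : E (n + (k + 1)) - E n = (E (n + 1) - E n) + (E (n + 1 + k) - E (n + 1)) := by
      rw [show n + (k + 1) = n + 1 + k by ring]
      omega
    rw [h4, win_add, ← h3]

/-- the words of length five -/
def W5 : List (List (Bool × Bool)) :=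
  [[la, la, lb, la, lb],
   [la, la, lb, lc, lc],
   [la, la, lb, lc, ld],
   [la, lb, la, lb, lc],
   [la, lb, lc, la, lb],
   [la, lb, lc, lc, ld],
   [la, lb, lc, ld, la],
   [la, lc, ld, la, la],
   [lb, la, lb, lc, la],
   [lb, la, lb, lc, lc],
   [lb, lc, la, lb, lc],
   [lb, lc, lc, ld, la],
   [lb, lc, lc, ld, lc],
   [lb, lc, ld, la, la],
   [lc, la, lb, lc, lc],
   [lc, lc, ld, la, la],
   [lc, lc, ld, la, lb],
   [lc, lc, ld, lc, ld],
   [lc, ld, la, la, lb],
   [lc, ld, la, lb, lc],
   [lc, ld, la, lc, ld],
   [lc, ld, lc, ld, la],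
   [ld, la, la, lb, la],
   [ld, la, la, lb, lc],
   [ld, la, lb, lc, lc],
   [ld, la, lc, ld, la],
   [ld, lc, ld, la, la],
   [ld, lc, ld, la, lc]]

def step (l : List (Bool × Bool)) : List (Bool × Bool) := l.flatMap sg

theorem take_win {k m n : ℕ} (h : k ≤ m) : (win m n).take k = win k n := by
  obtain ⟨r, rfl⟩ := Nat.exists_eq_add_of_le h
  rw [win_add, List.take_left' (length_win k n)]

theorem drop_win (m n : ℕ) : (win (m + 1) n).drop 1 = win m (n + 1) := by
  rw [win_succ]; rfl

theorem E_add_ge (n k : ℕ) : E n + k ≤ E (n + k) := by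
  induction k with
  | zero => simp
  | succ k ih =>
    have := E_lt_succ (n + k)
    rw [Nat.add_assoc n k 1] at this
    omega

theorem E_add_five (n : ℕ) : E n + 6 ≤ E (n + 5) := by
  have h := E_add_ge (n + 2) 3
  have h2 : E n + 3 ≤ E (n + 2) := by
    cases h1 : ty n with
    | false =>
      have h3 := E_succ_false h1
      have h4 := E_lt_succ (n + 1)
      have h5 : n + 1 + 1 = n + 2 := rfl
      rw [h5] at h4
      omega
    | true =>
      have h3 := E_succ_true h1
      have h4 := E_succ_false (ty_succ_of_true h1)
      have h5 : n + 1 + 1 = n + 2 := rfl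
      rw [h5] at h4
      omega
  have h6 : n + 2 + 3 = n + 5 := rfl
  rw [h6] at h
  omega

theorem W5_closed : ∀ w ∈ W5, (step w).take 5 ∈ W5 ∧
    (w.head?.map Prod.fst = some false → ((step w).drop 1).take 5 ∈ W5) := by
  decide +kernel

/-- the morphism applied nine times to the first letter -/
def tab : ℕ → List (Bool × Bool)
  | 0 => [la]
  | k + 1 => step (tab k)

/-- sizes of the table -/
def sz : ℕ → ℕ
  | 0 => 1
  | k + 1 => E (sz k)

theorem tab_eq (k : ℕ) : tab k = win (sz k) 0 := by
  induction k with
  | zero => simp [tab, sz, win_succ, win_zero, x, ty_zero, S_zero]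
  | succ k ih =>
    rw [tab, ih, step, flatMap_win, sz, E_zero, Nat.zero_add, Nat.sub_zero]

theorem sz_eq (k : ℕ) : sz k = fib (k + 2) := by
  induction k with
  | zero => rfl
  | succ k ih => rw [sz, ih, E_fib (by omega)]

theorem tab_eq' (k : ℕ) : tab k = win (fib (k + 2)) 0 := by rw [tab_eq, sz_eq]

theorem win_mem (n : ℕ) : win 5 n ∈ W5 := by
  induction n using Nat.strong_induction_on with
  | _ n ih =>
    rcases Nat.eq_zero_or_pos n with h0 | h0
    · subst h0
      have h1 : (tab 3).take 5 = win 5 0 := by
        rw [tab_eq' 3]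
        exact take_win (by decide)
      rw [← h1]
      decide +kernel
    obtain ⟨m, h | ⟨h1, h2⟩⟩ := exists_E n
    · have hm : m < n := by
        rcases Nat.eq_zero_or_pos m with h3 | h3
        · subst h3; exact h0
        · have h4 := E_add_ge 1 (m - 1)
          rw [E_one] at h4
          have h5 : 1 + (m - 1) = m := by omega
          rw [h5] at h4
          omega
      have h3 := (W5_closed _ (ih m hm)).1
      rw [step, flatMap_win, take_win, ← h] at h3
      · exact h3
      · have := E_add_five m
        omega
    · have hm : m < n := by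
        have := le_E m
        omega
      have h3 := (W5_closed _ (ih m hm)).2 (by simp [win_succ, x, h1])
      have h5 := E_add_five m
      obtain ⟨r, hr⟩ : ∃ r, E (m + 5) - E m = r + 1 := ⟨E (m + 5) - E m - 1, by omega⟩
      rw [step, flatMap_win, hr, drop_win, take_win, ← h2] at h3
      · exact h3
      · omega

theorem sync0 : ∀ u ∈ W5, ∀ v ∈ W5, u.map Prod.snd = v.map Prod.snd →
    (u.drop 1).map Prod.fst = (v.drop 1).map Prod.fst := by
  decide +kernel

theorem sync {i j : ℕ} (h : ∀ t < 5, S (i + t) = S (j + t)) :
    ∀ t, 1 ≤ t → t < 5 → x (i + t) = x (j + t) := by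
  have h1 := sync0 _ (win_mem i) _ (win_mem j) (by
    simp only [win_succ, win_zero, x, List.map_cons, List.map_nil]
    have a0 := h 0 (by omega)
    have a1 := h 1 (by omega)
    have a2 := h 2 (by omega)
    have a3 := h 3 (by omega)
    have a4 := h 4 (by omega)
    simp only [Nat.add_zero] at a0
    simp only [Nat.add_assoc]
    simp [a0, a1, a2, a3, a4])
  simp only [win_succ, win_zero, x, List.map_cons, List.map_nil, List.drop_succ_cons,
    List.drop_zero, List.cons.injEq, and_true, Nat.add_assoc] at h1
  intro t ht1 ht2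
  have ht := h t ht2
  obtain ⟨b1, b2, b3, b4⟩ := h1
  interval_cases t
  · simp [x, ht, b1]
  · simp only [x, ht]; congr 1
  · simp only [x, ht]; congr 1
  · simp only [x, ht]; congr 1

end Pool.Agent.U789.Zk
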